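import Pool.Agent.Helper86.ConeRetract.Final

set_option autoImplicit false

open Set Topology Filter TopologicalSpace

open Pool.Agent.Helper86.ConeRetract

universe u v

/-- Hyperspace retractions for cones over zero-dimensional compacta and for their subcontinua.

1. If `Z` is a compact metrizable totally disconnected space and `Y` is a subcontinuum (nonempty
   closed connected subset) of the cone over `Z`, then `C(Y)` is a retract of `2^Y`. (These `Y` are
   the points, the arcs and the smooth fans.)
2. If `Z` is moreover nonempty then the cone itself is a continuum `M` with `C(M)` a retract of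
   `2^M`, and it is not locally connected when `Z` is infinite.
3. (Q2) If `Z` is a compact metric space with exactly one limit point and `X` is a metric space
   homeomorphic to the cone over `Z`, then `X` is a continuum which is not locally connected, and
   there is a retraction of `2^X` onto `C(X)`, for the Hausdorff distance.
4. (Q1) There is a continuum which is not locally connected and for which such a retraction
   exists. -/
theorem Pool.Agent.Results.MP_85483e_gt.ConesAndFans.result :
    (∀ (Z : Type u) [TopologicalSpace Z] [CompactSpace Z] [MetrizableSpace Z]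
        [TotallyDisconnectedSpace Z] (Y : Set (Cone Z)), IsClosed Y → IsConnected Y →
        HyperRetract Y) ∧
    (∀ (Z : Type u) [TopologicalSpace Z] [CompactSpace Z] [MetrizableSpace Z]
        [TotallyDisconnectedSpace Z] [Nonempty Z],
        CompactSpace (Cone Z) ∧ ConnectedSpace (Cone Z) ∧ MetrizableSpace (Cone Z) ∧
        (Infinite Z → ¬ LocallyConnectedSpace (Cone Z)) ∧ HyperRetract (Cone Z)) ∧
    (∀ (Z : Type u) [MetricSpace Z] [CompactSpace Z], (∃! z : Z, AccPt z (𝓟 univ)) →
        ∀ (X : Type v) [MetricSpace X], Nonempty (X ≃ₜ Cone Z) →
        CompactSpace X ∧ ConnectedSpace X ∧ ¬ LocallyConnectedSpace X ∧ HausdorffRetract X) ∧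
    (∃ (X : Type) (_ : MetricSpace X), CompactSpace X ∧ ConnectedSpace X ∧
        ¬ LocallyConnectedSpace X ∧ HausdorffRetract X) := by
  refine ⟨?_, ?_, ?_, ?_⟩
  · intro Z _ _ _ _ Y hY hYc
    exact hyperRetract_subcontinuum Y hY hYc
  · intro Z _ _ _ _ _
    exact ⟨inferInstance, cone_connected, cone_metrizable,
      fun _ => cone_not_locallyConnected, hyperRetract_cone⟩
  · rintro Z _ _ h X _ ⟨e⟩
    exact main_one h X e
  · have _ : TotallyDisconnectedSpace (OnePoint ℕ) := totallyDisconnected_of_one one_limit_onePoint
    have _ : MetrizableSpace (Cone (OnePoint ℕ)) := cone_metrizable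
    let _ : MetricSpace (OnePoint ℕ) := metrizableSpaceMetric _
    let _ : MetricSpace (Cone (OnePoint ℕ)) := metrizableSpaceMetric _
    exact ⟨Cone (OnePoint ℕ), inferInstance, main_one one_limit_onePoint _ (Homeomorph.refl _)⟩
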